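import Pool.Agent.Lib_helper98.RC.Ker

/-!
# `m_1` of a tensor pair dominates the product, for every `p ≥ 3`

The landed `hk_ge` is for `3 ≤ α ≤ 4`; the upper bound is not used in its proof.
-/

set_option autoImplicit false
set_option linter.unusedSectionVars false

open scoped BigOperators ComplexOrder Kronecker MatrixOrder
open MeasureTheory Set Matrix

namespace Pool.Agent.RC

namespace M1K

open KER

/-- `hk_ge` without the upper bound -/
theorem hk_ge' (α a b c d : ℝ) (h3 : 3 ≤ α) (ha : 0 < a) (hb : 0 < b) (hc : 0 < c)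
    (hd : 0 < d) : hk α a b * hk α c d ≤ (hk α (a * c) (b * d) + hk α (a * d) (b * c)) / 2 := by
  obtain ⟨W, F, hW, hF, hW', hF', e1, e2⟩ := setup α a b c d ha hb hc hd
  rw [e1, e2]
  refine mul_le_mul_of_nonneg_left (cheb_int hW hF fun s hs t ht => ?_)
    (div_nonneg (Real.rpow_nonneg (mul_pos ha hb).le _) (by norm_num))
  rw [hW', hW', hF', hF']
  have cW : ConvexOn ℝ (Ioi 0) fun x : ℝ => x ^ (-α) := convexOn_rpow_neg (by linarith)
  have cF : ConvexOn ℝ (Ioi 0) fun x : ℝ => x ^ (α - 2) :=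
    (convexOn_rpow (by linarith)).subset Ioi_subset_Ici_self (convex_Ioi 0)
  rcases le_total |s - 1 / 2| |t - 1 / 2| with h | h
  · have a1 := S_mono cW hb ha hs ht h
    have a2 := S_mono cF hc hd hs ht h
    exact mul_nonneg_of_nonpos_of_nonpos (by linarith) (by linarith)
  · have a1 := S_mono cW hb ha ht hs h
    have a2 := S_mono cF hc hd ht hs h
    exact mul_nonneg (by linarith) (by linarith)

variable {ι κ : Type} [Fintype ι] [DecidableEq ι] [Fintype κ] [DecidableEq κ]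

theorem nrm_symm {E : Matrix ι ι ℂ} (hE : E.IsHermitian) (i j : ι) : ‖E j i‖ = ‖E i j‖ := by
  rw [← hE.apply i j, norm_star]

/-- `m_1(V) m_1(W) ≤ m_1(V ⊗ W)` for diagonal `A`, `A'` and every `p ≥ 3` -/
theorem m1_kron {p : ℝ} (h3 : 3 ≤ p) {a : ι → ℝ} (ha : ∀ i, 0 < a i) {b : κ → ℝ}
    (hb : ∀ k, 0 < b k) (E : Matrix ι ι ℂ) {F : Matrix κ κ ℂ} (hF : F.IsHermitian) :
    (∑ i, ∑ j, ‖E i j‖ ^ 2 * hk p (a i) (a j)) * (∑ k, ∑ l, ‖F k l‖ ^ 2 * hk p (b k) (b l)) ≤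
      ∑ x : ι × κ, ∑ y : ι × κ, ‖(E ⊗ₖ F) x y‖ ^ 2 *
        hk p (a x.1 * b x.2) (a y.1 * b y.2) := by
  have e1 : (∑ i, ∑ j, ‖E i j‖ ^ 2 * hk p (a i) (a j)) *
      (∑ k, ∑ l, ‖F k l‖ ^ 2 * hk p (b k) (b l)) =
      ∑ i, ∑ j, ‖E i j‖ ^ 2 * ∑ k, ∑ l, ‖F k l‖ ^ 2 * (hk p (a i) (a j) * hk p (b k) (b l)) := by
    rw [Finset.sum_mul]
    refine Finset.sum_congr rfl fun i _ => ?_
    rw [Finset.sum_mul]
    refine Finset.sum_congr rfl fun j _ => ?_
    rw [mul_assoc, Finset.mul_sum]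
    congr 1
    refine Finset.sum_congr rfl fun k _ => ?_
    rw [Finset.mul_sum]
    refine Finset.sum_congr rfl fun l _ => ?_
    ring
  have e2 : ∑ x : ι × κ, ∑ y : ι × κ, ‖(E ⊗ₖ F) x y‖ ^ 2 *
        hk p (a x.1 * b x.2) (a y.1 * b y.2) =
      ∑ i, ∑ j, ‖E i j‖ ^ 2 * ∑ k, ∑ l, ‖F k l‖ ^ 2 *
        ((hk p (a i * b k) (a j * b l) + hk p (a i * b l) (a j * b k)) / 2) := by
    have h1 : ∑ x : ι × κ, ∑ y : ι × κ, ‖(E ⊗ₖ F) x y‖ ^ 2 *
        hk p (a x.1 * b x.2) (a y.1 * b y.2) =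
        ∑ i, ∑ j, ‖E i j‖ ^ 2 * ∑ k, ∑ l, ‖F k l‖ ^ 2 * hk p (a i * b k) (a j * b l) := by
      rw [Fintype.sum_prod_type]
      refine Finset.sum_congr rfl fun i _ => ?_
      have : ∀ k, ∑ y : ι × κ, ‖(E ⊗ₖ F) (i, k) y‖ ^ 2 * hk p (a i * b k) (a y.1 * b y.2) =
          ∑ j, ∑ l, ‖E i j‖ ^ 2 * (‖F k l‖ ^ 2 * hk p (a i * b k) (a j * b l)) := fun k => by
        rw [Fintype.sum_prod_type]
        refine Finset.sum_congr rfl fun j _ => Finset.sum_congr rfl fun l _ => ?_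
        rw [kronecker_apply, norm_mul, mul_pow]
        ring
      simp only [this]
      rw [Finset.sum_comm]
      refine Finset.sum_congr rfl fun j _ => ?_
      rw [Finset.mul_sum]
      refine Finset.sum_congr rfl fun k _ => ?_
      rw [Finset.mul_sum]
    refine h1.trans (Finset.sum_congr rfl fun i _ => Finset.sum_congr rfl fun j _ => ?_)
    congr 1
    have hsw : ∑ k, ∑ l, ‖F k l‖ ^ 2 * hk p (a i * b k) (a j * b l) =
        ∑ k, ∑ l, ‖F k l‖ ^ 2 * hk p (a i * b l) (a j * b k) := by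
      rw [Finset.sum_comm]
      refine Finset.sum_congr rfl fun k _ => Finset.sum_congr rfl fun l _ => ?_
      rw [nrm_symm hF k l]
    have h3' : ∑ k, ∑ l, ‖F k l‖ ^ 2 *
        ((hk p (a i * b k) (a j * b l) + hk p (a i * b l) (a j * b k)) / 2) =
        (∑ k, ∑ l, ‖F k l‖ ^ 2 * hk p (a i * b k) (a j * b l) +
          ∑ k, ∑ l, ‖F k l‖ ^ 2 * hk p (a i * b l) (a j * b k)) / 2 := by
      rw [← Finset.sum_add_distrib, Finset.sum_div]
      refine Finset.sum_congr rfl fun k _ => ?_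
      rw [← Finset.sum_add_distrib, Finset.sum_div]
      refine Finset.sum_congr rfl fun l _ => ?_
      ring
    rw [h3', ← hsw]
    ring
  rw [e1, e2]
  refine Finset.sum_le_sum fun i _ => Finset.sum_le_sum fun j _ => ?_
  refine mul_le_mul_of_nonneg_left ?_ (by positivity)
  refine Finset.sum_le_sum fun k _ => Finset.sum_le_sum fun l _ => ?_
  exact mul_le_mul_of_nonneg_left (hk_ge' p _ _ _ _ h3 (ha i) (ha j) (hb k) (hb l))
    (by positivity)

end M1K

end Pool.Agent.RC
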